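import Pool.Agent.R597.MH3
import Pool.Agent.R597.MH4

/-!
# Monotone `G_δ` hulls of Borel sets are independent of ZFC

* Under the continuum hypothesis every class of Borel subsets of `[0,1]` has a monotone `G_δ` hull
  operation.
* If every function `ℝ → ℝ` is continuous on some non-meagre set (this is consistent with ZFC:
  Shelah, *Possibly every real function is continuous on a non-meagre set*, 1995), then there is no
  monotone `G_δ` hull operation on the `F_σ` subsets of `[0,1]`, nor on any class containing them;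
  in fact on no class containing the countable and the relatively open subsets of `[0,1]`.
-/

set_option autoImplicit false

namespace Pool.Agent.Results.MP_eb0437_lc.MonotoneHullsIndependent

open Set MeasureTheory

/-- `H ⊆ [0,1]` is a hull of `A`: it contains `A` and has the same Lebesgue outer measure
(in Mathlib `volume` of an arbitrary set of reals is its Lebesgue outer measure). -/
def IsHull (A H : Set ℝ) : Prop := A ⊆ H ∧ H ⊆ Icc 0 1 ∧ volume H = volume A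

/-- There is a monotone `𝓗` hull operation on `𝓓`. -/
def HasMonotoneHull (𝓓 𝓗 : Set (Set ℝ)) : Prop :=
  ∃ φ : 𝓓 → 𝓗, (∀ D : 𝓓, IsHull (D : Set ℝ) (φ D : Set ℝ)) ∧
    ∀ D D' : 𝓓, (D : Set ℝ) ⊆ (D' : Set ℝ) → (φ D : Set ℝ) ⊆ (φ D' : Set ℝ)

/-- the Borel subsets of `[0,1]` -/
def Borel01 : Set (Set ℝ) := {B | B ⊆ Icc 0 1 ∧ MeasurableSet B}

/-- the `G_δ` subsets of `[0,1]` -/
def Gdelta01 : Set (Set ℝ) := {G | G ⊆ Icc 0 1 ∧ IsGδ G}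

/-- the `F_σ` subsets of `[0,1]` -/
def Fsigma01 : Set (Set ℝ) :=
  {F | F ⊆ Icc 0 1 ∧ ∃ E : ℕ → Set ℝ, (∀ i, IsClosed (E i)) ∧ F = ⋃ i, E i}

/-- the `F_σδσ` subsets of `[0,1]` -/
def FsigmaDeltaSigma01 : Set (Set ℝ) :=
  {F | F ⊆ Icc 0 1 ∧ ∃ E : ℕ → ℕ → ℕ → Set ℝ, (∀ i j k, IsClosed (E i j k)) ∧
    F = ⋃ i, ⋂ j, ⋃ k, E i j k}

/-- Every function from the reals to the reals is continuous on some non-meagre set. -/
def ContinuousOnNonmeagre : Prop :=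
  ∀ f : ℝ → ℝ, ∃ A : Set ℝ, ¬ IsMeagre A ∧ ContinuousOn f A

theorem no_hull (h : ContinuousOnNonmeagre) (𝓓 : Set (Set ℝ))
    (h1 : ∀ D : Set ℝ, D ⊆ Icc 0 1 → D.Countable → D ∈ 𝓓)
    (h2 : ∀ V : Set ℝ, IsOpen V → Icc 0 1 ∩ V ∈ 𝓓) : ¬ HasMonotoneHull 𝓓 Gdelta01 := by
  rintro ⟨φ, hφ1, hφ2⟩
  classical
  have hval : ∀ D (hD : D ∈ 𝓓), (if h : D ∈ 𝓓 then ((φ ⟨D, h⟩ : Gdelta01) : Set ℝ) else ∅)
      = (φ ⟨D, hD⟩ : Set ℝ) := fun D hD => dif_pos hD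
  refine Pool.Agent.R597.MH.no_assignment h
    (fun D => if h : D ∈ 𝓓 then ((φ ⟨D, h⟩ : Gdelta01) : Set ℝ) else ∅) ?_ ?_ ?_
  · intro D hD hDc
    have hDD := h1 D hD hDc
    simp only [hval D hDD]
    exact ⟨(hφ1 ⟨D, hDD⟩).1, (φ ⟨D, hDD⟩).2.2⟩
  · intro V hV
    simp only [hval _ (h2 V hV)]
    exact (hφ1 ⟨_, h2 V hV⟩).2.2
  · intro D V hD hDc hV hsub
    simp only [hval _ (h2 V hV), hval D (h1 D hD hDc)]
    exact hφ2 ⟨D, h1 D hD hDc⟩ ⟨_, h2 V hV⟩ hsub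

theorem countable_mem {D : Set ℝ} (hD : D ⊆ Icc 0 1) (hDc : D.Countable) : D ∈ Fsigma01 := by
  refine ⟨hD, ?_⟩
  rcases D.eq_empty_or_nonempty with rfl | hne
  · exact ⟨fun _ => ∅, fun _ => isClosed_empty, by simp⟩
  · obtain ⟨f, hf⟩ := hDc.exists_eq_range hne
    refine ⟨fun i => {f i}, fun i => isClosed_singleton, ?_⟩
    rw [hf]
    ext x
    simp [eq_comm]

theorem open_mem {V : Set ℝ} (hV : IsOpen V) : Icc 0 1 ∩ V ∈ Fsigma01 := by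
  refine ⟨inter_subset_left, ?_⟩
  obtain ⟨F, hF1, _, hF3, _⟩ := hV.exists_iUnion_isClosed
  refine ⟨fun i => Icc 0 1 ∩ F i, fun i => isClosed_Icc.inter (hF1 i), ?_⟩
  rw [← inter_iUnion, hF3]

theorem result :
    (Fsigma01 ⊆ FsigmaDeltaSigma01 ∧ FsigmaDeltaSigma01 ⊆ Borel01) ∧
    (Cardinal.aleph 1 = Cardinal.continuum.{0} →
      ∀ 𝓓 : Set (Set ℝ), 𝓓 ⊆ Borel01 → HasMonotoneHull 𝓓 Gdelta01) ∧
    (ContinuousOnNonmeagre →
      ∀ 𝓓 : Set (Set ℝ), Fsigma01 ⊆ 𝓓 → ¬ HasMonotoneHull 𝓓 Gdelta01) ∧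
    (ContinuousOnNonmeagre →
      ∀ 𝓓 : Set (Set ℝ), (∀ D : Set ℝ, D ⊆ Icc 0 1 → D.Countable → D ∈ 𝓓) →
        (∀ V : Set ℝ, IsOpen V → Icc 0 1 ∩ V ∈ 𝓓) → ¬ HasMonotoneHull 𝓓 Gdelta01) := by
  refine ⟨⟨?_, ?_⟩, ?_, ?_, fun h 𝓓 => no_hull h 𝓓⟩
  · rintro F ⟨hF, E, hE, rfl⟩
    refine ⟨hF, fun i _ _ => E i, fun i _ _ => hE i, ?_⟩
    simp only [iUnion_const, iInter_const]
  · rintro F ⟨hF, E, hE, rfl⟩
    exact ⟨hF, MeasurableSet.iUnion fun i => MeasurableSet.iInter fun j =>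
      MeasurableSet.iUnion fun k => (hE i j k).measurableSet⟩
  · intro hCH 𝓓 h𝓓
    obtain ⟨φ, hφ1, hφ2⟩ := Pool.Agent.R597.MH.exists_hull hCH
    refine ⟨fun D => ⟨φ D, ?_⟩, ?_, ?_⟩
    · obtain ⟨h1, _, h3, _⟩ := hφ1 D (h𝓓 D.2).1 (h𝓓 D.2).2
      exact ⟨h3, h1⟩
    · intro D
      obtain ⟨_, h2, h3, h4⟩ := hφ1 D (h𝓓 D.2).1 (h𝓓 D.2).2
      exact ⟨h2, h3, h4⟩
    · intro D D' hsub
      exact hφ2 D D' (h𝓓 D.2).1 (h𝓓 D.2).2 (h𝓓 D'.2).1 (h𝓓 D'.2).2 hsub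
  · intro h 𝓓 h𝓓
    exact no_hull h 𝓓 (fun D hD hDc => h𝓓 (countable_mem hD hDc)) (fun V hV => h𝓓 (open_mem hV))

end Pool.Agent.Results.MP_eb0437_lc.MonotoneHullsIndependent
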